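import Pool.Agent.T2H43.QD.Defs

set_option autoImplicit false

open Pool.Agent.Helper346.Cd

namespace Pool.Agent.T2H43.QD

/-- `ℤ/2` with the trivial action of any group. -/
def Triv : Type := ZMod 2

instance : AddCommGroup Triv := inferInstanceAs (AddCommGroup (ZMod 2))

instance : DecidableEq Triv := inferInstanceAs (DecidableEq (ZMod 2))

/-- The trivial action. -/
@[reducible] def trivAct (G : Type) [Group G] : DistribMulAction G Triv where
  smul _ m := m
  one_smul _ := rfl
  mul_smul _ _ _ := rfl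
  smul_zero _ := rfl
  smul_add _ _ _ := rfl

/-- If a group `G` acts on `L` with open stabiliser of `θ`, and `θ` has exactly two conjugates, then
`H¹(G, ℤ/2) ≠ 0`. -/
theorem not_cdLe_zero {k L : Type} [Field k] [Field L] [Algebra k L] [Algebra.IsIntegral k L]
    (θ : L) (e : L) (h2 : ∀ σ : Gal(L/k), σ θ = θ ∨ σ θ = θ + e) (τ : Gal(L/k)) (hτ : τ θ ≠ θ) :
    ¬ CdLe 0 Gal(L/k) := by
  classical
  intro hcd
  letI := trivAct Gal(L/k)
  have hsm : ∀ (g : Gal(L/k)) (m : Triv), g • m = m := fun _ _ => rfl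
  have hdisc : IsDiscreteModule Gal(L/k) Triv := by
    intro m
    simp only [hsm]
    convert isOpen_univ
    ext g
    simp
  have htor : ∀ x : Triv, IsOfFinAddOrder x := by
    intro x
    rw [isOfFinAddOrder_iff_nsmul_eq_zero]
    refine ⟨2, by norm_num, ?_⟩
    exact (by decide : ∀ x : ZMod 2, (2 : ℕ) • x = 0) x
  have hH := hcd Triv hdisc htor 0 le_rfl
  -- the cocycle
  let one' : Triv := (1 : ZMod 2)
  let f : (Fin 2 → Gal(L/k)) → Triv := fun x => if x 0 θ = x 1 θ then 0 else one'
  have hloc : ∀ i : Fin 2, IsLocallyConstant (fun x : Fin 2 → Gal(L/k) => x i θ) := by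
    intro i
    rw [IsLocallyConstant.iff_eventually_eq]
    intro x
    have h1 := stabilizer_isOpen_of_isIntegral (K := k) (L := L) θ
    have h3 : Continuous (fun y : Fin 2 → Gal(L/k) => (x i)⁻¹ * y i) := by fun_prop
    have h4 : (fun y : Fin 2 → Gal(L/k) => (x i)⁻¹ * y i) ⁻¹'
        (MulAction.stabilizer Gal(L/k) θ : Set Gal(L/k)) ∈ nhds x := by
      apply (h1.preimage h3).mem_nhds
      show (x i)⁻¹ * x i ∈ MulAction.stabilizer Gal(L/k) θ
      rw [inv_mul_cancel]
      exact one_mem _
    filter_upwards [h4] with y hy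
    have h5 : ((x i)⁻¹ * y i) • θ = θ := hy
    rw [mul_smul, inv_smul_eq_iff] at h5
    exact h5
  have hf : IsCochain (G := Gal(L/k)) 1 f := by
    constructor
    · rw [IsLocallyConstant.iff_eventually_eq]
      intro x
      filter_upwards [(IsLocallyConstant.iff_eventually_eq _).1 (hloc 0) x,
        (IsLocallyConstant.iff_eventually_eq _).1 (hloc 1) x] with y h0 h1
      show (if y 0 θ = y 1 θ then (0 : Triv) else one') = if x 0 θ = x 1 θ then 0 else one'
      rw [h0, h1]
    · intro g x
      rw [hsm]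
      show (if (g * x 0) θ = (g * x 1) θ then (0 : Triv) else one') =
        if x 0 θ = x 1 θ then 0 else one'
      have : (g * x 0) θ = (g * x 1) θ ↔ x 0 θ = x 1 θ := by
        rw [AlgEquiv.mul_apply, AlgEquiv.mul_apply]
        exact g.injective.eq_iff
      simp only [this]
  have hdf : diff (1 : ℕ) f = 0 := by
    funext x
    show ∑ j : Fin 3, (-1 : ℤ) ^ (j : ℕ) • f (fun i => x (j.succAbove i)) = 0
    rw [Fin.sum_univ_three]
    have a0 : f (fun i => x ((0 : Fin 3).succAbove i)) =
        if x 1 θ = x 2 θ then 0 else one' := rfl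
    have a1 : f (fun i => x ((1 : Fin 3).succAbove i)) =
        if x 0 θ = x 2 θ then 0 else one' := rfl
    have a2 : f (fun i => x ((2 : Fin 3).succAbove i)) =
        if x 0 θ = x 1 θ then 0 else one' := rfl
    rw [a0, a1, a2]
    have hz : ∀ u : Triv, (-1 : ℤ) • u = u := by
      intro u
      exact (by decide : ∀ x : ZMod 2, (-1 : ℤ) • x = x) u
    simp only [Fin.val_zero, pow_zero, one_smul, Fin.val_one, pow_one, hz, Fin.val_two,
      even_two, Even.neg_pow, one_pow]
    have h11 : one' + one' = 0 := (by decide : (1 : ZMod 2) + 1 = 0)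
    rcases h2 (x 0) with h0 | h0 <;> rcases h2 (x 1) with h1 | h1 <;>
      rcases h2 (x 2) with h3 | h3 <;> rw [h0, h1, h3] <;> by_cases he : e = 0 <;>
      simp [he, h11]
  obtain ⟨g, hg, hgf⟩ := hH f hf hdf
  have hconst : ∀ σ : Gal(L/k), g (fun _ => σ) = g (fun _ => 1) := by
    intro σ
    have := hg.2 σ (fun _ => 1)
    rw [hsm] at this
    simpa using this
  have h5 := congrFun hgf (fun i => if i = 0 then 1 else τ)
  have h6 : f (fun i => if i = 0 then 1 else τ) = one' := by
    show (if ((1 : Gal(L/k)) θ = τ θ) then (0 : Triv) else one') = one'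
    rw [if_neg]
    intro h
    exact hτ h.symm
  rw [h6] at h5
  have h7 : diff (0 : ℕ) g (fun i => if i = 0 then 1 else τ) = g (fun _ => τ) - g (fun _ => 1) := by
    show ∑ j : Fin 2, (-1 : ℤ) ^ (j : ℕ) •
      g (fun i => if (j.succAbove i) = 0 then 1 else τ) = _
    rw [Fin.sum_univ_two]
    have b0 : (fun i : Fin 1 => if ((0 : Fin 2).succAbove i) = 0 then (1 : Gal(L/k)) else τ) =
        fun _ => τ := by
      funext i
      fin_cases i
      rfl
    have b1 : (fun i : Fin 1 => if ((1 : Fin 2).succAbove i) = 0 then (1 : Gal(L/k)) else τ) =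
        fun _ => 1 := by
      funext i
      fin_cases i
      rfl
    rw [b0, b1]
    simp only [Fin.val_zero, pow_zero, one_smul, Fin.val_one, pow_one, neg_smul]
    exact (sub_eq_add_neg _ _).symm
  rw [h7, hconst τ, sub_self] at h5
  exact (by decide : (0 : ZMod 2) ≠ 1) h5

end Pool.Agent.T2H43.QD
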