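import Pool.Agent.Y233.Cd.Defs

/-!
# Cohomological dimension and complete intersections of two quadrics: definitions
-/

set_option autoImplicit false

open MvPolynomial Pool.Agent.Helper346.Cd

namespace Pool.Agent.T2H43.QD

/-- The cohomological dimension of the profinite group `G` is at most `m`: `H^i(G, M) = 0` for all
`i > m` and all discrete torsion `G`-modules `M`. (`HSuccVanishes G M q` is `H^(q+1)(G, M) = 0`.) -/
def CdLe (m : ℕ) (G : Type) [Group G] [TopologicalSpace G] : Prop :=
  ∀ (M : Type) [AddCommGroup M] [DistribMulAction G M], IsDiscreteModule G M →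
    (∀ x : M, IsOfFinAddOrder x) → ∀ q : ℕ, m ≤ q → HSuccVanishes G M q

/-- The cohomological dimension of `G` is equal to one. -/
def CdEqOne (G : Type) [Group G] [TopologicalSpace G] : Prop :=
  CdLe 1 G ∧ ¬ CdLe 0 G

/-- `f = g = 0` is a smooth complete intersection of two quadrics in `ℙⁿ`: `f` and `g` are
quadratic forms, and at every geometric common zero the gradients of `f` and `g` are linearly
independent. -/
def IsSmoothIntersection {k : Type} [Field k] {n : ℕ} (f g : MvPolynomial (Fin (n + 1)) k) : Prop :=
  f.IsHomogeneous 2 ∧ g.IsHomogeneous 2 ∧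
    ∀ x : Fin (n + 1) → AlgebraicClosure k, x ≠ 0 → aeval x f = 0 → aeval x g = 0 →
      ∀ s t : AlgebraicClosure k,
        (∀ i, s * aeval x (pderiv i f) + t * aeval x (pderiv i g) = 0) → s = 0 ∧ t = 0

end Pool.Agent.T2H43.QD
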