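import Pool.Agent.T2H43.QD.Defs

set_option autoImplicit false

open MvPolynomial

namespace Pool.Agent.T2H43.QD

/-- `∑ (aᵢ xᵢ² + c xᵢ yᵢ + bᵢ yᵢ²)` in the six variables `x₁, y₁, x₂, y₂, x₃, y₃`. -/
noncomputable def formF {k : Type} [Field k] (a b : Fin 3 → k) (c : k) :
    MvPolynomial (Fin 6) k :=
  C (a 0) * X 0 ^ 2 + C c * X 0 * X 1 + C (b 0) * X 1 ^ 2 +
    (C (a 1) * X 2 ^ 2 + C c * X 2 * X 3 + C (b 1) * X 3 ^ 2) +
    (C (a 2) * X 4 ^ 2 + C c * X 4 * X 5 + C (b 2) * X 5 ^ 2)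

/-- The form `q₂ + c q₃ + x₁² + x₂² + x₃²`, where `qᵢ = aᵢ xᵢ² + c xᵢ yᵢ + bᵢ yᵢ²`. -/
noncomputable def formG {k : Type} [Field k] (a b : Fin 3 → k) (c : k) :
    MvPolynomial (Fin 6) k :=
  (C (a 1) * X 2 ^ 2 + C c * X 2 * X 3 + C (b 1) * X 3 ^ 2) +
    C c * (C (a 2) * X 4 ^ 2 + C c * X 4 * X 5 + C (b 2) * X 5 ^ 2) +
    (X 0 ^ 2 + X 2 ^ 2 + X 4 ^ 2)

theorem hom_term {k : Type} [Field k] (u : k) (i j : Fin 6) :
    (C u * X i * X j : MvPolynomial (Fin 6) k).IsHomogeneous 2 := by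
  have h1 : (C u * X i : MvPolynomial (Fin 6) k).IsHomogeneous 1 := by
    simpa using (isHomogeneous_C (Fin 6) u).mul (isHomogeneous_X k i)
  exact h1.mul (isHomogeneous_X k j)

theorem hom_sq {k : Type} [Field k] (u : k) (i : Fin 6) :
    (C u * X i ^ 2 : MvPolynomial (Fin 6) k).IsHomogeneous 2 := by
  have := hom_term u i i
  rwa [mul_assoc, ← pow_two] at this

theorem formF_hom {k : Type} [Field k] (a b : Fin 3 → k) (c : k) :
    (formF a b c).IsHomogeneous 2 := by
  unfold formF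
  exact ((((hom_sq _ _).add (hom_term _ _ _)).add (hom_sq _ _)).add
    (((hom_sq _ _).add (hom_term _ _ _)).add (hom_sq _ _))).add
    (((hom_sq _ _).add (hom_term _ _ _)).add (hom_sq _ _))

theorem formG_hom {k : Type} [Field k] (a b : Fin 3 → k) (c : k) :
    (formG a b c).IsHomogeneous 2 := by
  unfold formG
  have h1 : (X 0 ^ 2 + X 2 ^ 2 + X 4 ^ 2 : MvPolynomial (Fin 6) k).IsHomogeneous 2 :=
    ((isHomogeneous_X_pow 0 2).add (isHomogeneous_X_pow 2 2)).add (isHomogeneous_X_pow 4 2)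
  have h2 : (C c * (C (a 2) * X 4 ^ 2 + C c * X 4 * X 5 + C (b 2) * X 5 ^ 2) :
      MvPolynomial (Fin 6) k).IsHomogeneous 2 := by
    simpa using (isHomogeneous_C (Fin 6) c).mul
      (((hom_sq (a 2) 4).add (hom_term c 4 5)).add (hom_sq (b 2) 5))
  exact ((((hom_sq _ _).add (hom_term _ _ _)).add (hom_sq _ _)).add h2).add h1

section
variable {k : Type} [Field k] {K : Type} [Field K] [Algebra k K]

theorem aeval_F (a b : Fin 3 → k) (c : k) (x : Fin 6 → K) :
    aeval x (formF a b c) =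
      algebraMap k K (a 0) * x 0 ^ 2 + algebraMap k K c * x 0 * x 1 + algebraMap k K (b 0) * x 1 ^ 2
      + (algebraMap k K (a 1) * x 2 ^ 2 + algebraMap k K c * x 2 * x 3 +
        algebraMap k K (b 1) * x 3 ^ 2)
      + (algebraMap k K (a 2) * x 4 ^ 2 + algebraMap k K c * x 4 * x 5 +
        algebraMap k K (b 2) * x 5 ^ 2) := by
  simp [formF]

theorem aeval_G (a b : Fin 3 → k) (c : k) (x : Fin 6 → K) :
    aeval x (formG a b c) =
      (algebraMap k K (a 1) * x 2 ^ 2 + algebraMap k K c * x 2 * x 3 +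
        algebraMap k K (b 1) * x 3 ^ 2)
      + algebraMap k K c * (algebraMap k K (a 2) * x 4 ^ 2 + algebraMap k K c * x 4 * x 5 +
        algebraMap k K (b 2) * x 5 ^ 2) + (x 0 ^ 2 + x 2 ^ 2 + x 4 ^ 2) := by
  simp [formG]

theorem grad_F [CharP K 2] (a b : Fin 3 → k) (c : k) (x : Fin 6 → K) (i : Fin 6) :
    aeval x (pderiv i (formF a b c)) =
      algebraMap k K c * (![x 1, x 0, x 3, x 2, x 5, x 4] : Fin 6 → K) i := by
  have h2 : (2 : K) = 0 := CharTwo.two_eq_zero
  fin_cases i <;>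
  simp [formF, pderiv_X, h2, mul_comm, mul_left_comm]

theorem grad_G [CharP K 2] (a b : Fin 3 → k) (c : k) (x : Fin 6 → K) (i : Fin 6) :
    aeval x (pderiv i (formG a b c)) =
      algebraMap k K c * (![0, 0, x 3, x 2, algebraMap k K c * x 5, algebraMap k K c * x 4] :
        Fin 6 → K) i := by
  have h2 : (2 : K) = 0 := CharTwo.two_eq_zero
  fin_cases i <;>
  simp [formG, pderiv_X, h2, mul_comm, mul_left_comm]

end

/-- The intersection `formF = formG = 0` is smooth. -/
theorem smooth {k : Type} [Field k] [CharP k 2] (a b : Fin 3 → k) (c : k)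
    (hc0 : c ≠ 0) (hc1 : c ≠ 1) (hb : ∀ i, b i ≠ 0) :
    IsSmoothIntersection (n := 5) (formF a b c) (formG a b c) := by
  refine ⟨formF_hom a b c, formG_hom a b c, ?_⟩
  intro x hx hf hg s t hst
  have hK : CharP (AlgebraicClosure k) 2 :=
    charP_of_injective_algebraMap (algebraMap k (AlgebraicClosure k)).injective 2
  have inj := (algebraMap k (AlgebraicClosure k)).injective
  set φ := algebraMap k (AlgebraicClosure k) with hφ
  have hc0' : φ c ≠ 0 := by rwa [ne_eq, map_eq_zero]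
  have hc1' : φ c ≠ 1 := by
    intro h
    exact hc1 (inj (by rw [h, map_one]))
  have hb' : ∀ i, φ (b i) ≠ 0 := fun i => by
    rw [ne_eq, map_eq_zero]
    exact hb i
  have e : ∀ i, s * (φ c * (![x 1, x 0, x 3, x 2, x 5, x 4] : Fin 6 → _) i) +
      t * (φ c * (![0, 0, x 3, x 2, φ c * x 5, φ c * x 4] : Fin 6 → _) i) = 0 := by
    intro i
    have h := hst i
    rw [grad_F, grad_G] at h
    exact h
  have e0 := e 0
  have e1 := e 1
  have e2 := e 2
  have e3 := e 3
  have e4 := e 4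
  have e5 := e 5
  simp only [Matrix.cons_val] at e0 e1 e2 e3 e4 e5
  have cancel : ∀ u v : AlgebraicClosure k, φ c * (u * v) = 0 → u = 0 ∨ v = 0 := by
    intro u v h
    exact mul_eq_zero.1 ((mul_eq_zero.1 h).resolve_left hc0')
  have d0 := cancel s (x 1) (by linear_combination e0)
  have d1 := cancel s (x 0) (by linear_combination e1)
  have d2 := cancel (s + t) (x 3) (by linear_combination e2)
  have d3 := cancel (s + t) (x 2) (by linear_combination e3)
  have d4 := cancel (s + t * φ c) (x 5) (by linear_combination e4)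
  have d5 := cancel (s + t * φ c) (x 4) (by linear_combination e5)
  have hf' := aeval_F a b c x
  have hg' := aeval_G a b c x
  rw [hf, ← hφ] at hf'
  rw [hg, ← hφ] at hg'
  -- if two pairs vanish, so does the third
  have fin : (x 0 = 0 ∧ x 1 = 0 ∧ x 2 = 0 ∧ x 3 = 0) ∨ (x 0 = 0 ∧ x 1 = 0 ∧ x 4 = 0 ∧ x 5 = 0) ∨
      (x 2 = 0 ∧ x 3 = 0 ∧ x 4 = 0 ∧ x 5 = 0) → False := by
    intro h
    apply hx
    rcases h with ⟨h0, h1, h2, h3⟩ | ⟨h0, h1, h4, h5⟩ | ⟨h2, h3, h4, h5⟩
    · simp only [h0, h1, h2, h3] at hf' hg'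
      have h4 : x 4 = 0 := by
        have : x 4 ^ 2 = 0 := by linear_combination φ c * hf' - hg'
        exact pow_eq_zero_iff two_ne_zero |>.1 this
      have h5 : x 5 = 0 := by
        simp only [h4] at hf'
        have : φ (b 2) * x 5 ^ 2 = 0 := by linear_combination -hf'
        exact pow_eq_zero_iff two_ne_zero |>.1 ((mul_eq_zero.1 this).resolve_left (hb' 2))
      funext i
      fin_cases i <;> simp [h0, h1, h2, h3, h4, h5]
    · simp only [h0, h1, h4, h5] at hf' hg'
      have h2 : x 2 = 0 := by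
        have : x 2 ^ 2 = 0 := by linear_combination hf' - hg'
        exact pow_eq_zero_iff two_ne_zero |>.1 this
      have h3 : x 3 = 0 := by
        simp only [h2] at hf'
        have : φ (b 1) * x 3 ^ 2 = 0 := by linear_combination -hf'
        exact pow_eq_zero_iff two_ne_zero |>.1 ((mul_eq_zero.1 this).resolve_left (hb' 1))
      funext i
      fin_cases i <;> simp [h0, h1, h2, h3, h4, h5]
    · simp only [h2, h3, h4, h5] at hf' hg'
      have h0 : x 0 = 0 := by
        have : x 0 ^ 2 = 0 := by linear_combination -hg'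
        exact pow_eq_zero_iff two_ne_zero |>.1 this
      have h1 : x 1 = 0 := by
        simp only [h0] at hf'
        have : φ (b 0) * x 1 ^ 2 = 0 := by linear_combination -hf'
        exact pow_eq_zero_iff two_ne_zero |>.1 ((mul_eq_zero.1 this).resolve_left (hb' 0))
      funext i
      fin_cases i <;> simp [h0, h1, h2, h3, h4, h5]
  by_contra hcon
  apply fin
  by_cases hs : s = 0
  · have ht : t ≠ 0 := fun h => hcon ⟨hs, h⟩
    rw [hs, zero_add] at d2 d3 d4 d5
    have htc : t * φ c ≠ 0 := mul_ne_zero ht hc0'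
    exact Or.inr (Or.inr ⟨d3.resolve_left ht, d2.resolve_left ht, d5.resolve_left htc,
      d4.resolve_left htc⟩)
  · have h0 := d1.resolve_left hs
    have h1 := d0.resolve_left hs
    by_cases hst2 : s + t = 0
    · have hne : s + t * φ c ≠ 0 := by
        intro h
        have h3 : t * (φ c - 1) = 0 := by linear_combination h - hst2
        rcases mul_eq_zero.1 h3 with h4 | h4
        · apply hs
          rw [h4, add_zero] at hst2
          exact hst2
        · exact hc1' (sub_eq_zero.1 h4)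
      exact Or.inr (Or.inl ⟨h0, h1, d5.resolve_left hne, d4.resolve_left hne⟩)
    · exact Or.inl ⟨h0, h1, d3.resolve_left hst2, d2.resolve_left hst2⟩

end Pool.Agent.T2H43.QD
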