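import Pool.Agent.Y233.Cd.F
import Pool.Agent.T2H43.QD.Forms
import Pool.Agent.T2H43.QD.CdZero

set_option autoImplicit false

open MvPolynomial Pool.Agent.Helper346.Cd Pool.Agent.Y233.Cd

namespace Pool.Agent.T2H43.QD

/-- If `a x² + c x y + b y²` has no nontrivial zero over a field `k` of characteristic two, then
`G_k` has nontrivial cohomology in degree one. -/
theorem not_cdLe_zero_of {k : Type} [Field k] [CharP k 2] (a b c : k) (hc : c ≠ 0)
    (h : ∀ x y : k, a * x ^ 2 + c * x * y + b * y ^ 2 = 0 → x = 0 ∧ y = 0) :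
    ¬ CdLe 0 Gal(SeparableClosure k/k) := by
  have ha : a ≠ 0 := by
    intro h0
    have := h 1 0 (by rw [h0]; ring)
    exact one_ne_zero this.1
  have hK : CharP (SeparableClosure k) 2 :=
    charP_of_injective_algebraMap (algebraMap k (SeparableClosure k)).injective 2
  -- a root in the separable closure
  let P : Polynomial k := Polynomial.C a * Polynomial.X ^ 2 + Polynomial.C c * Polynomial.X +
    Polynomial.C b
  have hdeg : P.degree = 2 := Polynomial.degree_quadratic ha
  have hder : Polynomial.derivative P = Polynomial.C c := by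
    have h2 : (1 : k) + 1 = 0 := by
      rw [one_add_one_eq_two]
      exact CharTwo.two_eq_zero
    simp [P, h2]
  have hsep : P.Separable := by
    refine ⟨0, Polynomial.C c⁻¹, ?_⟩
    rw [hder, zero_mul, zero_add, ← Polynomial.C_mul, inv_mul_cancel₀ hc, Polynomial.C_1]
  obtain ⟨θ, hθ⟩ := IsSepClosed.exists_aeval_eq_zero (SeparableClosure k) P
    (by rw [hdeg]; norm_num) hsep
  have hθ' : algebraMap k (SeparableClosure k) a * θ ^ 2 +
      algebraMap k (SeparableClosure k) c * θ + algebraMap k (SeparableClosure k) b = 0 := by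
    simpa [P] using hθ
  set φ := algebraMap k (SeparableClosure k) with hφ
  have ha' : φ a ≠ 0 := by rwa [ne_eq, map_eq_zero]
  -- its conjugates
  have hconj : ∀ σ : Gal(SeparableClosure k/k), σ θ = θ ∨ σ θ = θ + φ c / φ a := by
    intro σ
    have h1 := congrArg σ hθ'
    have hfix : ∀ u : k, σ (φ u) = φ u := fun u => σ.commutes u
    rw [map_zero, map_add, map_add, map_mul, map_mul, map_pow, hfix, hfix, hfix] at h1
    have h2 : (σ θ - θ) * (φ a * (σ θ + θ) + φ c) = 0 := by linear_combination h1 - hθ'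
    rcases mul_eq_zero.1 h2 with h3 | h3
    · left
      exact sub_eq_zero.1 h3
    · right
      have h4 : φ a * (σ θ - (θ + φ c / φ a)) = 0 := by
        have h5 : (2 : SeparableClosure k) = 0 := CharTwo.two_eq_zero
        field_simp
        linear_combination h3 - (φ a * θ + φ c) * h5
      exact sub_eq_zero.1 ((mul_eq_zero.1 h4).resolve_left ha')
  -- it is not fixed
  have hτ : ∃ τ : Gal(SeparableClosure k/k), τ θ ≠ θ := by
    by_contra hcon
    push Not at hcon
    have h1 : θ ∈ (⊥ : IntermediateField k (SeparableClosure k)) := by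
      rw [InfiniteGalois.mem_bot_iff_fixed]
      exact hcon
    obtain ⟨r, hr⟩ := IntermediateField.mem_bot.1 h1
    have h2 : a * r ^ 2 + c * r * 1 + b * 1 ^ 2 = 0 := by
      apply φ.injective
      rw [map_zero, ← hθ', ← hr]
      simp [hφ]
    exact one_ne_zero (h r 1 h2).2
  obtain ⟨τ, hτ⟩ := hτ
  exact not_cdLe_zero θ (φ c / φ a) hconj τ hτ

theorem restrict {k : Type} [Field k] (A : Fin (7 + 1) → k) (c : k) (x : Fin 6 → k) :
    eval ![x 0, x 1, 0, x 2, x 3, 0, x 4, x 5] (dform 7 2 A c) =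
      A 0 * x 0 ^ 2 + c * x 0 * x 1 + A 1 * x 1 ^ 2 +
        (A 3 * x 2 ^ 2 + c * x 2 * x 3 + A 4 * x 3 ^ 2) +
        (A 6 * x 4 ^ 2 + c * x 4 * x 5 + A 7 * x 5 ^ 2) := by
  have h1 : ∑ i : Fin 8, A i * (![x 0, x 1, 0, x 2, x 3, 0, x 4, x 5] : Fin 8 → k) i ^ 2 =
      A 0 * x 0 ^ 2 + A 1 * x 1 ^ 2 + A 2 * 0 ^ 2 + A 3 * x 2 ^ 2 + A 4 * x 3 ^ 2 + A 5 * 0 ^ 2 +
        A 6 * x 4 ^ 2 + A 7 * x 5 ^ 2 := by
    rw [Fin.sum_univ_eight]
    rfl
  have h2 : ∑ i : Fin 7, (![x 0, x 1, 0, x 2, x 3, 0, x 4, x 5] : Fin 8 → k) i.castSucc *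
      (![x 0, x 1, 0, x 2, x 3, 0, x 4, x 5] : Fin 8 → k) i.succ =
      x 0 * x 1 + x 1 * 0 + 0 * x 2 + x 2 * x 3 + x 3 * 0 + 0 * x 4 + x 4 * x 5 := by
    rw [Fin.sum_univ_seven]
    rfl
  have h3 : eval ![x 0, x 1, 0, x 2, x 3, 0, x 4, x 5] (dform 7 2 A c) =
      ∑ i : Fin 8, A i * (![x 0, x 1, 0, x 2, x 3, 0, x 4, x 5] : Fin 8 → k) i ^ 2 +
      c * ∑ i : Fin 7, (![x 0, x 1, 0, x 2, x 3, 0, x 4, x 5] : Fin 8 → k) i.castSucc *
        (![x 0, x 1, 0, x 2, x 3, 0, x 4, x 5] : Fin 8 → k) i.succ := by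
    simp [dform]
  rw [h3, h1, h2]
  ring

theorem pair_of {k : Type} [Field k] [CharP k 2] (A : Fin (7 + 1) → k) (c : k) (hc0 : c ≠ 0)
    (hc1 : c ≠ 1) (hrat : ¬ HasRationalPoint (dform 7 2 A c)) :
    ¬ CdLe 0 Gal(SeparableClosure k/k) ∧
    ∃ f g : MvPolynomial (Fin 6) k, IsSmoothIntersection (n := 5) f g ∧
      ¬ ∃ x : Fin 6 → k, x ≠ 0 ∧ eval x f = 0 ∧ eval x g = 0 := by
  -- the quadratic form in six variables has no zeros
  have haniso : ∀ x : Fin 6 → k,
      A 0 * x 0 ^ 2 + c * x 0 * x 1 + A 1 * x 1 ^ 2 +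
        (A 3 * x 2 ^ 2 + c * x 2 * x 3 + A 4 * x 3 ^ 2) +
        (A 6 * x 4 ^ 2 + c * x 4 * x 5 + A 7 * x 5 ^ 2) = 0 → x = 0 := by
    intro x hx
    by_contra hx0
    apply hrat
    refine ⟨![x 0, x 1, 0, x 2, x 3, 0, x 4, x 5], ?_, ?_⟩
    · intro h
      apply hx0
      have e0 := congrFun h 0
      have e1 := congrFun h 1
      have e3 := congrFun h 3
      have e4 := congrFun h 4
      have e6 := congrFun h 6
      have e7 := congrFun h 7
      funext i
      fin_cases i
      · exact e0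
      · exact e1
      · exact e3
      · exact e4
      · exact e6
      · exact e7
    · rw [restrict]
      exact hx
  refine ⟨?_, formF ![A 0, A 3, A 6] ![A 1, A 4, A 7] c,
    formG ![A 0, A 3, A 6] ![A 1, A 4, A 7] c, ?_, ?_⟩
  · refine not_cdLe_zero_of (A 0) (A 1) c hc0 ?_
    intro u v huv
    have h1 := haniso ![u, v, 0, 0, 0, 0] (by
      simp only [Matrix.cons_val]
      linear_combination huv)
    exact ⟨congrFun h1 0, congrFun h1 1⟩
  · refine smooth _ _ c hc0 hc1 ?_
    intro i hi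
    fin_cases i
    · have hi' : A 1 = 0 := hi
      have h1 := haniso ![0, 1, 0, 0, 0, 0] (by
        simp only [Matrix.cons_val]
        linear_combination hi')
      exact one_ne_zero (congrFun h1 1)
    · have hi' : A 4 = 0 := hi
      have h1 := haniso ![0, 0, 0, 1, 0, 0] (by
        simp only [Matrix.cons_val]
        linear_combination hi')
      exact one_ne_zero (congrFun h1 3)
    · have hi' : A 7 = 0 := hi
      have h1 := haniso ![0, 0, 0, 0, 0, 1] (by
        simp only [Matrix.cons_val]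
        linear_combination hi')
      exact one_ne_zero (congrFun h1 5)
  · rintro ⟨x, hx, hf, -⟩
    apply hx
    apply haniso
    rw [← hf]
    simp [formF]

theorem main : ∃ (k : Type) (_ : Field k), CharP k 2 ∧
    CdEqOne Gal(SeparableClosure k/k) ∧
    (∀ h : Polynomial k, Irreducible h → ∃ t, h.natDegree = 2 ^ t) ∧
    ∃ f g : MvPolynomial (Fin 6) k, IsSmoothIntersection (n := 5) f g ∧
      ¬ ∃ x : Fin 6 → k, x ≠ 0 ∧ eval x f = 0 ∧ eval x g = 0 := by
  let κ := FractionRing (MvPolynomial ℕ (ZMod 2))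
  let K0 := FractionRing (Polynomial κ)
  have : CharP κ 2 :=
    charP_of_injective_algebraMap (IsFractionRing.injective (MvPolynomial ℕ (ZMod 2)) κ) 2
  have : CharP K0 2 :=
    charP_of_injective_algebraMap (IsFractionRing.injective (Polynomial κ) K0) 2
  obtain ⟨E, hE1, hE2⟩ := exists_maximal_prime_to 2 Nat.prime_two K0 (SeparableClosure K0)
  have hCE : CharP E 2 := charP_of_injective_algebraMap (algebraMap K0 E).injective 2
  have hirr : ∀ f : Polynomial E, Irreducible f → ∃ t, f.natDegree = 2 ^ t :=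
    irr_pow (p := 2) (fun M _ _ _ h => finrank_eq_one_of_prime_to hE2 M h)
  let a : Fin (7 + 1) → κ := fun i => algebraMap (MvPolynomial ℕ (ZMod 2)) κ (X (i : ℕ))
  let A : Fin (7 + 1) → E :=
    fun i => algebraMap K0 E (algebraMap (Polynomial κ) K0 (Polynomial.C (a i)))
  let c : E := algebraMap K0 E (algebraMap (Polynomial κ) K0 Polynomial.X)
  have hrat : ¬ HasRationalPoint (dform 7 2 A c) := by
    intro h
    obtain ⟨x, hx, hx0, hx1⟩ := rational_degree _ h
    have h1 := dvd_pointField (p := 2) E hE1 7 2 1 (by omega) (by norm_num) a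
      (indep_pow 2 (ZMod 2) 7) x hx hx0
    rw [← hx1] at h1
    norm_num at h1
  have hpX : ∀ r : κ, Polynomial.X ≠ Polynomial.C r := by
    intro r h
    have := congrArg Polynomial.natDegree h
    simp at this
  have hinj1 := (algebraMap K0 E).injective
  have hinj2 := IsFractionRing.injective (Polynomial κ) K0
  have hc0 : c ≠ 0 := by
    intro h
    have h1 : algebraMap (Polynomial κ) K0 Polynomial.X = 0 := by
      apply hinj1
      rw [map_zero]
      exact h
    have h2 : (Polynomial.X : Polynomial κ) = 0 := hinj2 (by rw [map_zero]; exact h1)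
    exact Polynomial.X_ne_zero h2
  have hc1 : c ≠ 1 := by
    intro h
    have h1 : algebraMap (Polynomial κ) K0 Polynomial.X = 1 := by
      apply hinj1
      rw [map_one]
      exact h
    have h2 : (Polynomial.X : Polynomial κ) = 1 := hinj2 (by rw [map_one]; exact h1)
    exact hpX 1 (by rw [Polynomial.C_1]; exact h2)
  obtain ⟨h1, h2⟩ := pair_of A c hc0 hc1 hrat
  exact ⟨E, inferInstance, hCE, ⟨cdLeOne_of hE2, h1⟩, hirr, h2⟩

end Pool.Agent.T2H43.QD
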